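import Pool.Agent.Lib.P81d4f5.Radius

/-!
# Trace preserving actions with the weak tracial Rokhlin property and large radius of comparison

For every finite group `G` and every natural number `K` there is a simple separable unital stably
finite C*-algebra `A` with a unique tracial state and `rc(A) ≥ K`, and an action of `G` on `A`
with the weak tracial Rokhlin property. All tracial states are invariant under the action.

The algebra is an inductive limit of algebras of covariant matrix valued functions on
`(∏ S³) × G`, with one new group translated point evaluation at each stage.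
-/

open scoped ComplexOrder ENNReal
open Filter Topology CStarLim Pool.Agent.Lib.P81d4f5

namespace Pool.Agent.Results.MP_81d4f5_an.Full

theorem result (G : Type) [Group G] [Fintype G] (K : ℕ) :
    ∃ (A : Type) (_ : CStarAlgebra A) (_ : PartialOrder A) (_ : StarOrderedRing A),
      GoodAlgebra G K A := by
  classical
  let l : ℕ → ℕ := fun n => n
  have hl : Tendsto l atTop atTop := tendsto_id
  let s := sys G l (K + 1)
  have hsimple : IsSimpleRing s.Lim := isSimpleRing_sys hl
  obtain ⟨τ₀, hτ₀⟩ : ∃ τ : s.Lim →ₗ[ℂ] ℂ, IsTracialState τ := exists_tracialState_sys G l (K + 1)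
  have huniq : ∀ τ τ' : s.Lim →ₗ[ℂ] ℂ, IsTracialState τ → IsTracialState τ' → τ = τ' :=
    fun τ τ' h h' => tracialState_unique hl h h'
  let po : PartialOrder s.Lim := CStarAlgebra.spectralOrder s.Lim
  let so : StarOrderedRing s.Lim := CStarAlgebra.spectralOrderedRing s.Lim
  refine ⟨s.Lim, inferInstance, po, so, hsimple, separable_sys,
    stablyFinite_of_simple hτ₀, ⟨τ₀, hτ₀, fun τ h => huniq τ τ₀ h hτ₀⟩, ?_,
    actSys G l (K + 1), weakTracialRokhlin_sys, ?_⟩
  · have h := rc_sys (G := G) (l := l) (m := K + 1) (Nat.succ_pos K)
    simpa using h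
  · intro τ h g a
    let σ : s.Lim →ₗ[ℂ] ℂ :=
      { toFun := fun x => τ (actSys G l (K + 1) g x)
        map_add' := fun x y => by rw [map_add, map_add]
        map_smul' := fun c x => by rw [map_smul, map_smul]; rfl }
    have hσ : IsTracialState σ := by
      refine ⟨?_, ?_, ?_⟩
      · change τ (actSys G l (K + 1) g 1) = 1
        rw [map_one, h.map_one]
      · intro x
        change 0 ≤ τ (actSys G l (K + 1) g (star x * x))
        rw [map_mul, map_star]
        exact h.nonneg _
      · intro x y
        change τ (actSys G l (K + 1) g (x * y)) = τ (actSys G l (K + 1) g (y * x))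
        rw [map_mul (actSys G l (K + 1) g) x y, map_mul (actSys G l (K + 1) g) y x, h.tracial]
    exact congrArg (fun f : s.Lim →ₗ[ℂ] ℂ => f a) (huniq σ τ hσ h)

end Pool.Agent.Results.MP_81d4f5_an.Full
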